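import Mathlib
import Pool.Agent.MP873b83.Reduce

set_option autoImplicit false

namespace Pool.Agent.Results.MP_873b83_al.TwoByTwo

open Matrix Polynomial Pool.Agent.MP873b83

/-- Every `2 × 2` integer matrix with irrational eigenvalues satisfying (P) is shift equivalent
over `ℤ` to a primitive integer matrix. -/
theorem result (A : Matrix (Fin 2) (Fin 2) ℤ) (Λ : Fin 2 → ℂ)
    (hΛ : (A.map (Int.cast : ℤ → ℂ)).charpoly = ∏ i, (X - C (Λ i)))
    (hirr : ∀ i, ∀ q : ℚ, Λ i ≠ (q : ℂ)) (hP : CondP Λ) : SEPrimitive A := by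
  rw [Matrix.charpoly_fin_two, Fin.prod_univ_two] at hΛ
  have h0 := congrArg (Polynomial.eval 0) hΛ
  have h1 := congrArg (Polynomial.eval 1) hΛ
  simp only [eval_add, eval_sub, eval_mul, eval_pow, eval_X, eval_C] at h0 h1
  rw [Matrix.trace_fin_two, Matrix.det_fin_two] at h0 h1
  simp only [Matrix.map_apply] at h0 h1
  have hdet : ((A 0 0 * A 1 1 - A 0 1 * A 1 0 : ℤ) : ℂ) = Λ 0 * Λ 1 := by
    push_cast; linear_combination h0
  have htr : ((A 0 0 + A 1 1 : ℤ) : ℂ) = Λ 0 + Λ 1 := by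
    push_cast; linear_combination h0 - h1
  -- the two eigenvalues
  obtain ⟨r, l, hr, hl, hirr2, htr2, hdet2⟩ : ∃ (r : ℝ) (l : ℂ), 0 < r ∧ ‖l‖ < r ∧
      (∀ q : ℚ, (r : ℂ) ≠ (q : ℂ)) ∧ ((A 0 0 + A 1 1 : ℤ) : ℂ) = r + l ∧
      ((A 0 0 * A 1 1 - A 0 1 * A 1 0 : ℤ) : ℂ) = r * l := by
    obtain ⟨i, r, hr, hi, hj⟩ := hP
    fin_cases i
    · refine ⟨r, Λ 1, hr, hj 1 (by decide), ?_, ?_, ?_⟩
      · intro q; rw [← hi]; exact hirr _ q
      · rw [htr, ← hi]; rfl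
      · rw [hdet, ← hi]; rfl
    · refine ⟨r, Λ 0, hr, hj 0 (by decide), ?_, ?_, ?_⟩
      · intro q; rw [← hi]; exact hirr _ q
      · rw [htr, ← hi]; exact add_comm _ _
      · rw [hdet, ← hi]; exact mul_comm _ _
  set t : ℤ := A 0 0 + A 1 1 with ht
  set m : ℤ := A 0 0 * A 1 1 - A 0 1 * A 1 0 with hm
  have hlr : l = ((t - r : ℝ) : ℂ) := by
    push_cast; linear_combination -htr2
  rw [hlr, Complex.norm_real, Real.norm_eq_abs, abs_lt] at hl
  have ht0 : (0 : ℝ) < t := by linarith [hl.1]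
  have ht1 : 1 ≤ t := by
    have : (0 : ℤ) < t := by exact_mod_cast ht0
    omega
  have hmr : (m : ℝ) = r * (t - r) := by
    rw [hlr] at hdet2
    exact_mod_cast hdet2
  have hD : ((t ^ 2 - 4 * m : ℤ) : ℝ) = (2 * r - t) ^ 2 := by
    push_cast; rw [hmr]; ring
  have hpos : 0 < 2 * r - t := by linarith [hl.2]
  have hD0 : 0 < t ^ 2 - 4 * m := by
    have : (0 : ℝ) < ((t ^ 2 - 4 * m : ℤ) : ℝ) := by rw [hD]; positivity
    exact_mod_cast this
  have hsq : ¬ IsSquare (t ^ 2 - 4 * m) := by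
    rintro ⟨k, hk⟩
    have h2 : (2 * r - t) ^ 2 = ((|k| : ℤ) : ℝ) ^ 2 := by
      rw [← hD, hk]
      push_cast
      rw [sq_abs]; ring
    have h3 : (0 : ℝ) ≤ ((|k| : ℤ) : ℝ) := by exact_mod_cast abs_nonneg k
    have h4 : 2 * r - t = ((|k| : ℤ) : ℝ) := by
      have := abs_eq_abs.2 (sq_eq_sq_iff_eq_or_eq_neg.1 h2)
      rw [abs_of_pos hpos, abs_of_nonneg h3] at this
      exact this
    generalize |k| = kk at h4
    apply hirr2 (((t + kk : ℤ) : ℚ) / 2)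
    have h5 : r = ((t : ℝ) + (kk : ℝ)) / 2 := by linarith
    rw [h5]
    push_cast
    rfl
  have e : (A 0 0 - A 1 1) ^ 2 + 4 * (A 0 1 * A 1 0) = t ^ 2 - 4 * m := by rw [ht, hm]; ring
  rw [Matrix.eta_fin_two A]
  exact reduce _ _ _ _ _ le_rfl ht1 (by rw [e]; exact hD0) (by rw [e]; exact hsq)

end Pool.Agent.Results.MP_873b83_al.TwoByTwo
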